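import Pool.Agent.helper56.SG.SpecG

/-!
# Project sg (MP_2b8aea_gt), module FX1: the fixed equivariant function
-/

set_option autoImplicit false

open MeasureTheory Set Metric Filter Topology
open scoped ENNReal NNReal ComplexConjugate
open Pool.Agent.SG

noncomputable section

namespace Pool.Agent.SGG

/-- the iterates of the averaging operator -/
def FX1_u (t : ℝ) (W0 : ℂ → ℝ) : ℕ → ℂ → ℝ
  | 0 => W0
  | n + 1 => KK t (FX1_u t W0 n)

theorem FX1 (hACT : ACT_stmt) (hKLI : KLI_stmt) (hKCT : KCT_stmt) (hEQI : EQI_stmt)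
    (hWZE : WZE_stmt) (hANT : ANT_stmt) (hPOS : POS_stmt) (hUCV : UCV_stmt) : FX1_stmt := by
  intro Γ _ A hD hC χ r hχ φ hφ t δ ht0 ht1 hδ0 hδ1 hDoe
  obtain ⟨W0, hW0c, hW0e⟩ := hWZE Γ A hD χ r hχ φ hφ
  obtain ⟨hE1, hE2, hE3⟩ := hEQI Γ A
  set u := FX1_u t W0 with hu
  have hus : ∀ n, u (n + 1) = KK t (u n) := fun n => rfl
  have huc : ∀ n, CB (u n) := by
    intro n
    induction n with
    | zero => exact hW0c
    | succ n ih => rw [hus]; exact hKCT t ht0 ht1 (u n) ih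
  have hue : ∀ n, Equi A φ (u n) := by
    intro n
    induction n with
    | zero => exact hW0e
    | succ n ih => rw [hus]; exact hE1 φ (u n) t ht0 ht1 (huc n) ih
  have hvc : ∀ n, CB (fun y => u (n + 1) y - u n y) := fun n => (huc (n + 1)).sub (huc n)
  have hvi : ∀ n, Invt A (fun y => u (n + 1) y - u n y) := by
    intro n γ z hz
    change u (n + 1) (A.act γ z) - u n (A.act γ z) = u (n + 1) z - u n z
    rw [hue (n + 1) γ z hz, hue n γ z hz]
    ring
  have hKv : ∀ n, ∀ x ∈ ball (0 : ℂ) 1,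
      KK t (fun y => u (n + 1) y - u n y) x = u (n + 2) x - u (n + 1) x := by
    intro n x hx
    exact ((hKLI t ht0 ht1 x hx).2.1 (u (n + 1)) (u n) (huc (n + 1)) (huc n)).2.1
  obtain ⟨M, hM0, hM⟩ := hE3 hC _ (hvc 0) (hvi 0)
  have hosc : ∀ n, ∀ x ∈ ball (0 : ℂ) 1, ∀ y ∈ ball (0 : ℂ) 1,
      (u (n + 1) x - u n x) - (u (n + 1) y - u n y) ≤ (1 - δ) ^ n * M := by
    intro n
    induction n with
    | zero =>
      intro x hx y hy
      rw [pow_zero, one_mul]
      exact hM x hx y hy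
    | succ n ih =>
      intro x hx y hy
      have h := hDoe _ (hvc n) (hvi n) _ ih x hx y hy
      rw [hKv n x hx, hKv n y hy] at h
      calc (u (n + 1 + 1) x - u (n + 1) x) - (u (n + 1 + 1) y - u (n + 1) y)
          ≤ (1 - δ) * ((1 - δ) ^ n * M) := h
        _ = (1 - δ) ^ (n + 1) * M := by ring
  have hbd : ∀ n, ∀ x ∈ ball (0 : ℂ) 1, |u (n + 1) x - u n x| ≤ (1 - δ) ^ n * M := by
    intro n x hx
    have hant : ∫ y, χ y * (u (n + 1) y - u n y) ∂hyp = 0 :=
      hANT Γ A hD χ r hχ φ hφ (u n) (huc n) (hue n) t ht0 ht1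
    obtain ⟨⟨x0, hx0, hx0'⟩, y0, hy0, hy0'⟩ := hPOS Γ A χ r hχ _ (hvc n) hant
    have hx0'' : u (n + 1) x0 - u n x0 ≤ 0 := hx0'
    have hy0'' : 0 ≤ u (n + 1) y0 - u n y0 := hy0'
    have h1 := hosc n x hx x0 hx0
    have h2 := hosc n y0 hy0 x hx
    rw [abs_le]
    constructor <;> linarith
  obtain ⟨W, hWc, hW⟩ := hUCV u (1 - δ) M (by linarith) (by linarith) huc hbd
  refine ⟨W, hWc, ?_, ?_⟩
  · intro γ z hz
    have hz' : A.act γ z ∈ ball (0 : ℂ) 1 := ((hACT Γ A z hz).1 γ).2.1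
    have h0 : ∀ ε : ℝ, 0 < ε → |W (A.act γ z) - (W z + φ γ)| ≤ ε := by
      intro ε hε
      obtain ⟨N, hN⟩ := hW (ε / 2) (by positivity)
      have h1 := hN N le_rfl (A.act γ z) hz'
      have h2 := hN N le_rfl z hz
      rw [hue N γ z hz] at h1
      rw [abs_le] at h1 h2 ⊢
      constructor <;> linarith [h1.1, h1.2, h2.1, h2.2]
    have h1 : |W (A.act γ z) - (W z + φ γ)| ≤ 0 := le_of_forall_pos_le_add (by simpa using h0)
    exact sub_eq_zero.1 (abs_nonpos_iff.1 h1)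
  · intro x hx
    have h0 : ∀ ε : ℝ, 0 < ε → |KK t W x - W x| ≤ ε := by
      intro ε hε
      obtain ⟨N, hN⟩ := hW (ε / 2) (by positivity)
      have h1 := hN (N + 1) (Nat.le_succ N) x hx
      have h2 := (hKLI t ht0 ht1 x hx).2.2 W (u N) hWc (huc N) (ε / 2) (by
        intro y hy
        have := hN N le_rfl y hy
        rwa [abs_sub_comm] at this)
      rw [hus N] at h1
      rw [abs_le] at h1 h2 ⊢
      constructor <;> linarith [h1.1, h1.2, h2.1, h2.2]
    have h1 : |KK t W x - W x| ≤ 0 := le_of_forall_pos_le_add (by simpa using h0)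
    exact sub_eq_zero.1 (abs_nonpos_iff.1 h1)

end Pool.Agent.SGG
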