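import Pool.Agent.helper56.SG.SpecG

/-!
# Project sg (MP_2b8aea_gt), module WZE: a continuous equivariant function
-/

set_option autoImplicit false

open MeasureTheory Set Metric Filter Topology
open scoped ENNReal NNReal ComplexConjugate
open Pool.Agent.SG

noncomputable section

namespace Pool.Agent.SGG

theorem WZE (hACT : ACT_stmt) (hLSU : LSU_stmt) : WZE_stmt := by
  intro Γ _ A hD χ r hχ φ hφ
  obtain ⟨hc, hf, hs⟩ := hLSU Γ A hD χ r hχ.cb hχ.r1 hχ.supp (fun γ => φ γ⁻¹)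
  refine ⟨fun z => ∑' γ, φ γ⁻¹ * χ (A.act γ z), hc, ?_⟩
  intro δ z hz
  have hδz : A.act δ z ∈ ball (0 : ℂ) 1 := ((hACT Γ A z hz).1 δ).2.1
  set T : Finset Γ := (hf z hz).toFinset with hT
  have hT1 : ∀ γ, χ (A.act γ z) ≠ 0 → γ ∈ T := by
    intro γ hγ
    rw [hT, Set.Finite.mem_toFinset]
    exact hγ
  have hcomp : ∀ γ, A.act γ (A.act δ z) = A.act (γ * δ) z := fun γ =>
    ((hACT Γ A z hz).2.2 γ δ).symm
  set T' : Finset Γ := T.map (Equiv.mulRight δ⁻¹).toEmbedding with hT'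
  have hT'1 : ∀ γ, χ (A.act γ (A.act δ z)) ≠ 0 → γ ∈ T' := by
    intro γ hγ
    rw [hcomp] at hγ
    rw [hT', Finset.mem_map]
    refine ⟨γ * δ, hT1 _ hγ, ?_⟩
    simp
  have h1 : ∑' γ, φ γ⁻¹ * χ (A.act γ z) = ∑ γ ∈ T, φ γ⁻¹ * χ (A.act γ z) := hs z hz T hT1
  have h2 : ∑' γ, φ γ⁻¹ * χ (A.act γ (A.act δ z)) =
      ∑ γ ∈ T', φ γ⁻¹ * χ (A.act γ (A.act δ z)) := hs _ hδz T' hT'1
  have h3 : ∑ γ ∈ T, χ (A.act γ z) = 1 := hχ.one z hz T hT1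
  change ∑' γ, φ γ⁻¹ * χ (A.act γ (A.act δ z)) = ∑' γ, φ γ⁻¹ * χ (A.act γ z) + φ δ
  rw [h1, h2, hT', Finset.sum_map]
  calc ∑ x ∈ T, φ ((Equiv.mulRight δ⁻¹).toEmbedding x)⁻¹ *
        χ (A.act ((Equiv.mulRight δ⁻¹).toEmbedding x) (A.act δ z))
      = ∑ x ∈ T, (φ x⁻¹ * χ (A.act x z) + φ δ * χ (A.act x z)) := by
        apply Finset.sum_congr rfl
        intro x _
        rw [hcomp]
        have e1 : (Equiv.mulRight δ⁻¹).toEmbedding x = x * δ⁻¹ := rfl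
        rw [e1, inv_mul_cancel_right, mul_inv_rev, inv_inv, hφ]
        ring
    _ = ∑ γ ∈ T, φ γ⁻¹ * χ (A.act γ z) + φ δ := by
        rw [Finset.sum_add_distrib, ← Finset.mul_sum, h3, mul_one]

end Pool.Agent.SGG
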