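import Pool.Agent.helper68.SG.SpecK

/-!
# Project sg (MP_2b8aea_gt), module K12: the key step
-/

set_option autoImplicit false

open MeasureTheory Set Metric Filter Topology
open scoped ENNReal NNReal ComplexConjugate

namespace Pool.Agent.SG

theorem K12 (h9 : K09_stmt) (h10 : K10_stmt) (h11 : K11_stmt) : K12_stmt := by
  intro Γ _ A W F ψ C ν f C' a' hF hS hR z hz
  have hmom := h9 Γ A W F ψ C ν f C' a' hF hS.toStat hR
  have hle : ∀ s ∈ W.S, W.μ s ≤ 1 := by
    intro s hs
    have h := Finset.single_le_sum (f := W.μ) (fun i _ => zero_le) hs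
    rwa [W.sum] at h
  have hpos : ∀ s ∈ W.S, 0 < (W.μ s).toReal := by
    intro s hs
    exact ENNReal.toReal_pos (W.pos s hs) ((hle s hs).trans_lt ENNReal.one_lt_top).ne
  have hψ := h10 Γ W.S (fun s => (W.μ s).toReal) ψ hpos hmom
  exact h11 Γ A W F ψ C hF hS.coc hψ z hz

end Pool.Agent.SG
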