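import Pool.Agent.helper80.SG.Spec
import Pool.Agent.helper72.SV.RKL

/-!
# Project sg (MP_b5a345_ag), module RLH: rank of the host conditions
-/

set_option autoImplicit false
set_option linter.unusedSectionVars false

namespace Pool.Agent.SG

open MvPolynomial Module Pool.Agent.SV

section
variable {ι κ : Type} [Fintype ι] [DecidableEq ι] [Fintype κ] [DecidableEq κ]

theorem RLH_eval (x : ι → ℂ) (m : ι →₀ ℕ) :
    eval x (monomial m (1 : ℂ)) = ∏ i, x i ^ (m i) := by
  rw [eval_monomial, one_mul]
  exact Finsupp.prod_fintype _ _ (fun i => pow_zero _)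

/-- the gradient of a monomial with two factors that vanish is zero -/
theorem RLH_two (c : ι → κ) (x : ι → ℂ) (m : ι →₀ ℕ) (p : κ → ι) (T : Finset κ)
    (hp : ∀ k, c (p k) = k) (hx : ∀ k ∈ T, x (p k) = 0) (hm : 2 ≤ ∑ k ∈ T, m (p k)) (j : ι) :
    eval x (pderiv j (monomial m (1 : ℂ))) = 0 := by
  rw [RKL_eval]
  by_cases h : ∃ k ∈ T, (m - Finsupp.single j 1 : ι →₀ ℕ) (p k) ≠ 0
  · obtain ⟨k, hk, hne⟩ := h
    rw [Finset.prod_eq_zero (Finset.mem_univ (p k)), mul_zero]
    rw [hx k hk, zero_pow hne]
  · exfalso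
    push Not at h
    have h1 : ∀ k ∈ T, m (p k) ≤ if k = c j then 1 else 0 := by
      intro k hk
      have h2 := h k hk
      rw [Finsupp.tsub_apply, Finsupp.single_apply] at h2
      by_cases hj : j = p k
      · rw [if_pos hj] at h2
        rw [if_pos (by rw [hj, hp])]
        omega
      · rw [if_neg hj] at h2
        omega
    have h2 : ∑ k ∈ T, m (p k) ≤ ∑ k ∈ T, if k = c j then 1 else 0 := Finset.sum_le_sum h1
    rw [Finset.sum_ite_eq'] at h2
    split_ifs at h2 <;> omega

/-- the gradients at `e_o` -/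
theorem RLH_grad (c : ι → κ) (o : κ → ι) (ho : ∀ k, c (o k) = k) (d : κ → ℕ)
    (hd : ∃ k, 1 ≤ d k) :
    ∃ (I : Type) (_ : Fintype I) (v : I → ι → ℂ), LinearIndependent ℂ v ∧
      Fintype.card I = Dk c Finset.univ d ∧ ∀ s, ∃ g ∈ Sec c Finset.univ d, ∀ j,
        eval (fun i => if i = o (c i) then (1 : ℂ) else 0) (pderiv j g) = v s j := by
  classical
  set x : ι → ℂ := fun i => if i = o (c i) then 1 else 0 with hxdef
  have hx1 : ∀ i, i = o (c i) → x i = 1 := fun i h => if_pos h
  have hx0 : ∀ i, i ≠ o (c i) → x i = 0 := fun i h => if_neg h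
  let I : Finset ι := Finset.univ.filter (fun i => 1 ≤ d (c i) ∧ i ≠ o (c i))
  let u : ι → ℂ := fun j => if j = o (c j) then (d (c j) : ℂ) else 0
  let v : Option I → ι → ℂ := fun s => s.elim u (fun i => Pi.single i.1 1)
  refine ⟨Option I, inferInstance, v, ?_, ?_, ?_⟩
  · rw [linearIndependent_option]
    constructor
    · have h1 := (Pi.basisFun ℂ ι).linearIndependent.comp (fun i : I => i.1) Subtype.val_injective
      have h2 : (⇑(Pi.basisFun ℂ ι) ∘ fun i : I => i.1) = (fun i : I => Pi.single i.1 (1 : ℂ)) := by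
        funext i
        exact Pi.basisFun_apply ℂ ι i.1
      rw [h2] at h1
      exact h1
    · intro hmem
      obtain ⟨k, hk⟩ := hd
      have h1 : Submodule.span ℂ (Set.range (v ∘ some)) ≤
          LinearMap.ker (LinearMap.proj (o k) : (ι → ℂ) →ₗ[ℂ] ℂ) := by
        rw [Submodule.span_le]
        rintro _ ⟨i, rfl⟩
        show (Pi.single i.1 (1 : ℂ) : ι → ℂ) (o k) = 0
        apply Pi.single_eq_of_ne
        intro h
        have h2 := (Finset.mem_filter.1 i.2).2.2
        apply h2
        rw [← h, ho]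
      have h2 : (u : ι → ℂ) (o k) = 0 := h1 hmem
      have h3 : u (o k) = (d k : ℂ) := by
        show (if o k = o (c (o k)) then (d (c (o k)) : ℂ) else 0) = _
        rw [ho, if_pos rfl]
      rw [h3] at h2
      have : d k = 0 := by exact_mod_cast h2
      omega
  · rw [Fintype.card_option, Fintype.card_coe]
    unfold Dk
    rw [Nat.add_comm]
    congr 1
    rw [Finset.card_eq_sum_card_fiberwise (f := c)
      (t := Finset.univ.filter (fun k => 1 ≤ d k))]
    · apply Finset.sum_congr rfl
      intro k hk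
      rw [Finset.mem_filter] at hk
      have h1 : I.filter (fun i => c i = k) =
          (Finset.univ.filter (fun i => c i = k)).erase (o k) := by
        ext i
        simp only [I, Finset.mem_filter, Finset.mem_erase]
        constructor
        · rintro ⟨⟨h1, h2, h3⟩, h4⟩
          refine ⟨?_, h1, h4⟩
          rw [← h4]
          exact h3
        · rintro ⟨h1, h2, h3⟩
          refine ⟨⟨h2, ?_, ?_⟩, h3⟩
          · rw [h3]
            exact hk.2
          · rw [h3]
            exact h1
      rw [h1, Finset.card_erase_of_mem]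
      rw [Finset.mem_filter]
      exact ⟨Finset.mem_univ _, ho k⟩
    · intro i hi
      have := (Finset.mem_filter.1 hi).2.1
      simp only [Finset.coe_filter, Finset.mem_univ, true_and]
      exact this
  · intro s
    rcases s with _ | i
    · refine ⟨monomial (RKL_D c o d) 1, RKL_mono c _ d _
        (RKL_D_mem c _ o ho (fun k => Finset.mem_univ _) d), ?_⟩
      intro j
      show _ = u j
      rw [RKL_eval]
      have h1 : ∏ i, x i ^ ((RKL_D c o d - Finsupp.single j 1 : ι →₀ ℕ) i) = 1 := by
        apply Finset.prod_eq_one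
        intro i _
        by_cases h : i = o (c i)
        · rw [hx1 i h, one_pow]
        · have : (RKL_D c o d - Finsupp.single j 1 : ι →₀ ℕ) i = 0 := by
            rw [Finsupp.tsub_apply, RKL_D_apply, if_neg h, Nat.zero_sub]
          rw [this, pow_zero]
      rw [h1, mul_one, RKL_D_apply]
      show _ = (if j = o (c j) then (d (c j) : ℂ) else 0)
      by_cases h : j = o (c j)
      · rw [if_pos h, if_pos h]
      · rw [if_neg h, if_neg h, Nat.cast_zero]
    · obtain ⟨i, hi⟩ := i
      obtain ⟨hiA, hid, hio⟩ := Finset.mem_filter.1 hi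
      refine ⟨monomial (RKL_M c o d i) 1, RKL_mono c _ d _
        (RKL_M_mem c _ o ho (fun k => Finset.mem_univ _) d i (Finset.mem_univ _) hid), ?_⟩
      intro j
      show _ = (Pi.single i (1 : ℂ) : ι → ℂ) j
      by_cases hji : j = i
      · subst hji
        rw [Pi.single_eq_same, RKL_eval]
        have h1 : ∏ i', x i' ^ ((RKL_M c o d j - Finsupp.single j 1 : ι →₀ ℕ) i') = 1 := by
          apply Finset.prod_eq_one
          intro i' _
          by_cases h : i' = o (c i')
          · rw [hx1 i' h, one_pow]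
          · have : (RKL_M c o d j - Finsupp.single j 1 : ι →₀ ℕ) i' = 0 := by
              rw [Finsupp.tsub_apply, RKL_M_apply, if_neg h, Finsupp.single_apply]
              by_cases h2 : i' = j
              · rw [if_pos h2, if_pos h2.symm]
              · rw [if_neg h2, if_neg (Ne.symm h2)]
                rfl
            rw [this, pow_zero]
        rw [h1, mul_one, RKL_M_apply, if_pos rfl, if_neg hio]
        norm_num
      · rw [Pi.single_eq_of_ne hji, RKL_eval]
        have h1 : ∏ i', x i' ^ ((RKL_M c o d i - Finsupp.single j 1 : ι →₀ ℕ) i') = 0 := by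
          apply Finset.prod_eq_zero (Finset.mem_univ i)
          have : (RKL_M c o d i - Finsupp.single j 1 : ι →₀ ℕ) i = 1 := by
            rw [Finsupp.tsub_apply, RKL_M_apply, if_pos rfl, if_neg hio, Finsupp.single_apply,
              if_neg hji]
            rfl
          rw [this, pow_one, hx0 i hio]
        rw [h1, mul_zero]

/-- the rank estimate -/
theorem RLH_rank {E J I : Type} [AddCommGroup E] [Module ℂ E] [Fintype J] [DecidableEq J]
    [Fintype I] (L : E →ₗ[ℂ] (J → ℂ)) (φ : ι → J) (j0 j1 : J) (v : I → ι → ℂ)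
    (hv : LinearIndependent ℂ v) (e : I → E) (he : ∀ s j, L (e s) (φ j) = v s j) (e₁ e₂ : E)
    (h1 : ∀ j, L e₁ (φ j) = 0) (h2 : ∀ j, L e₂ (φ j) = 0) (h10 : L e₁ j0 = 0)
    (h20 : L e₂ j0 ≠ 0) (h11 : L e₁ j1 ≠ 0) :
    Fintype.card I + 2 ≤ finrank ℂ (LinearMap.range L) := by
  have hcard : Fintype.card (I ⊕ Bool) = Fintype.card I + 2 := by
    rw [Fintype.card_sum, Fintype.card_bool]
  rw [← hcard]
  let w : I ⊕ Bool → J → ℂ := fun s => Sum.elim (fun i => L (e i)) (fun b => if b then L e₁ else L e₂) s
  apply RKL_rank L w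
  · rw [Fintype.linearIndependent_iff]
    intro g hg
    rw [Fintype.sum_sum_type, Fintype.sum_bool] at hg
    have hg' : ∑ s, g (Sum.inl s) • L (e s) + (g (Sum.inr true) • L e₁ +
        g (Sum.inr false) • L e₂) = 0 := hg
    have ha : ∀ s, g (Sum.inl s) = 0 := by
      rw [Fintype.linearIndependent_iff] at hv
      apply hv
      funext j
      have h3 := congrFun hg' (φ j)
      simp only [Pi.add_apply, Finset.sum_apply, Pi.smul_apply, smul_eq_mul, h1, h2, mul_zero,
        add_zero, he, Pi.zero_apply] at h3 ⊢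
      exact h3
    have hb : g (Sum.inr false) = 0 := by
      have h3 := congrFun hg' j0
      simp only [Pi.add_apply, Finset.sum_apply, Pi.smul_apply, smul_eq_mul, ha, zero_mul,
        Finset.sum_const_zero, zero_add, h10, mul_zero, Pi.zero_apply] at h3
      exact (mul_eq_zero.1 h3).resolve_right h20
    have hc : g (Sum.inr true) = 0 := by
      have h3 := congrFun hg' j1
      simp only [Pi.add_apply, Finset.sum_apply, Pi.smul_apply, smul_eq_mul, ha, zero_mul,
        Finset.sum_const_zero, zero_add, hb, add_zero, Pi.zero_apply] at h3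
      exact (mul_eq_zero.1 h3).resolve_right h11
    rintro (s | b)
    · exact ha s
    · cases b
      · exact hb
      · exact hc
  · rintro (s | b)
    · exact ⟨e s, rfl⟩
    · cases b
      · exact ⟨e₂, rfl⟩
      · exact ⟨e₁, rfl⟩

end

theorem RLH : RLH_stmt := by
  classical
  intro ι κ _ _ _ _ c T d hcol hdT htwo hsum
  have hp : ∀ k, ∃ p : ι × ι, c p.1 = k ∧ c p.2 = k ∧ (k ∈ T → p.2 ≠ p.1) ∧
      (k ∉ T → p.2 = p.1) := by
    intro k
    by_cases hk : k ∈ T
    · obtain ⟨i, i', hne, hi, hi'⟩ := htwo k hk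
      exact ⟨(i, i'), hi, hi', fun _ => hne.symm, fun h => absurd hk h⟩
    · obtain ⟨i, hi⟩ := hcol k
      exact ⟨(i, i), hi, hi, fun h => absurd h hk, fun _ => rfl⟩
  choose p hp1 hp2 hp3 hp4 using hp
  obtain ⟨k₁, hk₁⟩ : T.Nonempty := by
    rw [Finset.nonempty_iff_ne_empty]
    rintro rfl
    simp at hsum
  set o : κ → ι := fun k => (p k).1 with ho
  set q : κ → ι := fun k => (p k).2 with hq
  have hoc : ∀ k, c (o k) = k := hp1
  have hqc : ∀ k, c (q k) = k := hp2
  have hqo : ∀ k ∈ T, q k ≠ o k := fun k hk => hp3 k hk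
  have hqn : ∀ k, k ∉ T → q k = o k := fun k hk => hp4 k hk
  obtain ⟨I, _, v, hv, hcard, hpol⟩ := RLH_grad c o hoc d ⟨k₁, hdT k₁ hk₁⟩
  choose g hg hgv using hpol
  let x : ι → ℂ := fun i => if i = q (c i) then 1 else 0
  let x' : ι → ℂ := fun i => (if i = o (c i) then 1 else 0) - (if i = q (c i) then 1 else 0)
  have hpt0 : ptc c T 0 (x, x') = x := by
    funext i
    unfold ptc
    simp
  have hpt2 : ptc c T 2 (x, x') = fun i => if i = o (c i) then (1 : ℂ) else 0 := by
    funext i
    unfold ptc
    by_cases h : c i ∈ T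
    · simp [h, x, x']
    · simp [h, x, hqn (c i) h]
  have hm2 : RKL_D c q d ∈ Mon c Finset.univ d :=
    RKL_D_mem c _ q hqc (fun k => Finset.mem_univ _) d
  have hm1 : RKL_M c q d (o k₁) ∈ Mon c Finset.univ d :=
    RKL_M_mem c _ q hqc (fun k => Finset.mem_univ _) d (o k₁) (Finset.mem_univ _) (by
      rw [hoc]
      exact hdT k₁ hk₁)
  have hz : ∀ k ∈ T, (fun i => if i = o (c i) then (1 : ℂ) else 0) (q k) = 0 := by
    intro k hk
    show (if q k = o (c (q k)) then (1 : ℂ) else 0) = 0
    rw [hqc, if_neg (hqo k hk)]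
  have hs2 : 2 ≤ ∑ k ∈ T, RKL_D c q d (q k) := by
    have : ∑ k ∈ T, RKL_D c q d (q k) = ∑ k ∈ T, d k := by
      apply Finset.sum_congr rfl
      intro k _
      rw [RKL_D_apply, hqc, if_pos rfl]
    rw [this, hsum]
    norm_num
  have hs1 : 2 ≤ ∑ k ∈ T, RKL_M c q d (o k₁) (q k) := by
    have h1 : ∑ k ∈ T, RKL_M c q d (o k₁) (q k) + ∑ k ∈ T, (if k = k₁ then 1 else 0) =
        ∑ k ∈ T, d k := by
      rw [← Finset.sum_add_distrib]
      apply Finset.sum_congr rfl
      intro k hk
      rw [RKL_M_apply, hqc, if_pos rfl, hoc]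
      have h2 : q k ≠ o k₁ := by
        intro h
        have h3 : k = k₁ := by rw [← hqc k, h, hoc]
        rw [h3] at h
        exact hqo k₁ hk₁ h
      rw [if_neg h2, zero_add]
      have := hdT k hk
      split_ifs <;> omega
    rw [Finset.sum_ite_eq', if_pos hk₁, hsum] at h1
    omega
  refine ⟨(x, x'), ?_⟩
  rw [← hcard]
  have hR : ∀ (f : ↥(Sec c Finset.univ d)) (o' : Option (Fin 3 × Option ι)),
      roleS c T d 2 (x, x') f o' = (if used 2 o' = true then roleF c T (x, x') o' (f : MvPolynomial ι ℂ)
        else 0) := by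
    intro f o'
    unfold roleS roleL
    rw [LinearMap.comp_apply, LinearMap.pi_apply]
    by_cases h : used 2 o' = true
    · simp [h]
    · simp [h]
  have hRd : ∀ (f : ↥(Sec c Finset.univ d)) (j : ι),
      roleS c T d 2 (x, x') f (some (2, some j)) =
        eval (fun i => if i = o (c i) then (1 : ℂ) else 0) (pderiv j (f : MvPolynomial ι ℂ)) := by
    intro f j
    rw [hR, ← hpt2]
    simp [used, roleF]
  have hR0 : ∀ (f : ↥(Sec c Finset.univ d)),
      roleS c T d 2 (x, x') f (some (0, none)) = eval x (f : MvPolynomial ι ℂ) := by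
    intro f
    rw [hR]
    conv_rhs => rw [← hpt0]
    simp [used, roleF]
  have hR1 : ∀ (f : ↥(Sec c Finset.univ d)),
      roleS c T d 2 (x, x') f (some (1, none)) =
        eval (ptc c T 1 (x, x')) (f : MvPolynomial ι ℂ) := by
    intro f
    rw [hR]
    simp [used, roleF]
  apply RLH_rank (roleS c T d 2 (x, x')) (fun j => some (2, some j)) (some (0, none))
    (some (1, none)) v hv (fun s => ⟨g s, hg s⟩) _
    ⟨monomial (RKL_M c q d (o k₁)) 1, RKL_mono c _ d _ hm1⟩
    ⟨monomial (RKL_D c q d) 1, RKL_mono c _ d _ hm2⟩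
  · intro j
    rw [hRd]
    exact RLH_two c _ _ q T hqc hz hs1 j
  · intro j
    rw [hRd]
    exact RLH_two c _ _ q T hqc hz hs2 j
  · rw [hR0, RLH_eval]
    apply Finset.prod_eq_zero (Finset.mem_univ (o k₁))
    have h1 : x (o k₁) = 0 := by
      show (if o k₁ = q (c (o k₁)) then (1 : ℂ) else 0) = 0
      rw [hoc, if_neg (hqo k₁ hk₁).symm]
    have h2 : RKL_M c q d (o k₁) (o k₁) ≠ 0 := by
      rw [RKL_M_apply, if_pos rfl]
      omega
    rw [h1, zero_pow h2]
  · rw [hR0, RLH_eval]
    rw [Finset.prod_ne_zero_iff]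
    intro i _
    by_cases h : i = q (c i)
    · have h1 : x i = 1 := if_pos h
      rw [h1, one_pow]
      exact one_ne_zero
    · rw [RKL_D_apply, if_neg h, pow_zero]
      exact one_ne_zero
  · rw [hR1, RLH_eval]
    rw [Finset.prod_ne_zero_iff]
    intro i _
    by_cases h : RKL_M c q d (o k₁) i = 0
    · rw [h, pow_zero]
      exact one_ne_zero
    · apply pow_ne_zero
      rw [RKL_M_apply] at h
      unfold ptc
      by_cases hT : c i ∈ T
      · have h10 : (1 : Fin 3) ≠ 0 := by decide
        rw [if_pos hT, if_neg h10, if_pos rfl]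
        show (if i = o (c i) then (1 : ℂ) else 0) - (if i = q (c i) then 1 else 0) ≠ 0
        by_cases h3 : i = o (c i)
        · have h4 : i ≠ q (c i) := fun h5 => hqo (c i) hT (h5.symm.trans h3)
          rw [if_pos h3, if_neg h4]
          norm_num
        · have h4 : i = q (c i) := by
            by_contra h5
            rw [if_neg h5] at h
            by_cases h6 : i = o k₁
            · apply h3
              rw [h6, hoc]
            · rw [if_neg h6] at h
              exact h rfl
          rw [if_neg h3, if_pos h4]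
          norm_num
      · rw [if_neg hT]
        show (if i = q (c i) then (1 : ℂ) else 0) ≠ 0
        have h4 : i = q (c i) := by
          by_contra h5
          rw [if_neg h5] at h
          by_cases h6 : i = o k₁
          · apply hT
            rw [h6, hoc]
            exact hk₁
          · rw [if_neg h6] at h
            exact h rfl
        rw [if_pos h4]
        exact one_ne_zero
  · intro s j
    rw [hRd]
    exact hgv s j

end Pool.Agent.SG
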